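import Mathlib

/-!
# Co-consonance does not pass to the lower powerspace

We build a `T0` space which is co-consonant while its lower powerspace is not.
-/

open Set TopologicalSpace Topology

universe u

namespace Pool.Agent.Results.MP_a60c23_gt.NotPreserved

/-- `X` is co-consonant: on the lattice of open sets of `X` the upper topology (generated by the
complements of principal ideals) coincides with the Scott topology. -/
def CoConsonant (X : Type u) [TopologicalSpace X] : Prop :=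
  Topology.upper (Opens X) = Topology.scott (Opens X) Set.univ

/-- The underlying set of the lower powerspace of `X`: all closed subsets of `X`. -/
def LowerPowerspace (X : Type u) [TopologicalSpace X] : Type u := Closeds X

/-- The topology of the lower powerspace is generated by the sets of all closed `F` which meet `U`,
for `U` open in `X`. -/
instance lowerPowerspaceTopology (X : Type u) [TopologicalSpace X] :
    TopologicalSpace (LowerPowerspace X) :=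
  TopologicalSpace.generateFrom
    {S : Set (Closeds X) | ∃ U : Opens X, S = {F : Closeds X | ((F : Set X) ∩ (U : Set X)).Nonempty}}

/-! ### Finite generation of Scott open families -/

section General

variable {X : Type u} [TopologicalSpace X]

theorem scott_isOpen_iff (s : Set (Opens X)) :
    IsOpen[Topology.scott (Opens X) Set.univ] s ↔
      IsUpperSet s ∧ ∀ d : Set (Opens X), d.Nonempty → DirectedOn (· ≤ ·) d →
        sSup d ∈ s → (d ∩ s).Nonempty := by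
  let _ : TopologicalSpace (Opens X) := Topology.scott (Opens X) Set.univ
  have : IsScott (Opens X) Set.univ := ⟨rfl⟩
  have h := IsScott.isOpen_iff_isUpperSet_and_dirSupInaccOn (α := Opens X) (D := Set.univ) (s := s)
  refine h.trans ?_
  refine and_congr_right fun _ => ⟨fun h d hd hd' hs => ?_, fun h d _ hd hd' a ha has => ?_⟩
  · exact h trivial hd hd' (isLUB_sSup d) hs
  · refine h d hd hd' ?_
    rwa [ha.sSup_eq]

theorem upper_basic_scott (A : Opens X) :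
    IsOpen[Topology.scott (Opens X) Set.univ] ((Iic A)ᶜ) := by
  rw [scott_isOpen_iff]
  refine ⟨(isLowerSet_Iic A).compl, fun d _ _ hs => ?_⟩
  by_contra hcon
  have hle : sSup d ≤ A := by
    refine sSup_le fun V hV => ?_
    by_contra hVA
    exact hcon ⟨V, hV, hVA⟩
  exact hs hle

/-- Every neighbourhood in the upper topology is generated by a finite set of points. -/
theorem upper_finite (s : Set (Opens X)) (hs : IsOpen[Topology.upper (Opens X)] s) :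
    ∀ U ∈ s, ∃ E : Set X, E.Finite ∧ E ⊆ U ∧ ∀ V : Opens X, E ⊆ V → V ∈ s := by
  induction hs with
  | basic t ht =>
    obtain ⟨A, rfl⟩ := ht
    intro U hU
    have hU' : ¬ ((U : Set X) ⊆ A) := hU
    obtain ⟨x, hxU, hxA⟩ := Set.not_subset.1 hU'
    refine ⟨{x}, Set.finite_singleton x, by simpa using hxU, fun V hV hVA => ?_⟩
    exact hxA (hVA (hV rfl))
  | univ => exact fun U _ => ⟨∅, Set.finite_empty, Set.empty_subset _, fun _ _ => trivial⟩
  | inter t₁ t₂ _ _ h₁ h₂ =>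
    intro U hU
    obtain ⟨E₁, hf₁, hE₁, hV₁⟩ := h₁ U hU.1
    obtain ⟨E₂, hf₂, hE₂, hV₂⟩ := h₂ U hU.2
    exact ⟨E₁ ∪ E₂, hf₁.union hf₂, Set.union_subset hE₁ hE₂, fun V hV =>
      ⟨hV₁ V (Set.subset_union_left.trans hV), hV₂ V (Set.subset_union_right.trans hV)⟩⟩
  | sUnion S _ h =>
    rintro U ⟨t, htS, hUt⟩
    obtain ⟨E, hf, hE, hV⟩ := h t htS U hUt
    exact ⟨E, hf, hE, fun V hEV => ⟨t, htS, hV V hEV⟩⟩

/-- If all Scott open families are generated by finite sets of points, then the space is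
co-consonant. -/
theorem coConsonant_of_finite
    (h : ∀ s : Set (Opens X), IsOpen[Topology.scott (Opens X) Set.univ] s →
      ∀ U ∈ s, ∃ E : Set X, E.Finite ∧ E ⊆ U ∧ ∀ V : Opens X, E ⊆ V → V ∈ s) :
    CoConsonant X := by
  unfold CoConsonant
  apply le_antisymm
  · -- every Scott open set is upper open
    intro s hs
    let _ : TopologicalSpace (Opens X) := Topology.upper (Opens X)
    change IsOpen s
    rw [isOpen_iff_forall_mem_open]
    intro U hU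
    obtain ⟨E, hf, hEU, hE⟩ := h s hs U hU
    refine ⟨⋂ e ∈ E, (Iic (⟨(closure {e})ᶜ, isClosed_closure.isOpen_compl⟩ : Opens X))ᶜ,
      ?_, ?_, ?_⟩
    · intro V hV
      apply hE
      intro e he
      have := Set.mem_iInter₂.1 hV e he
      by_contra heV
      apply this
      intro x hxV hx
      have : e ∈ (V : Set X) := by
        have hx' : x ∈ closure {e} := hx
        rw [mem_closure_iff] at hx'
        obtain ⟨y, hyV, hy⟩ := hx' V V.isOpen hxV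
        rwa [Set.mem_singleton_iff.1 hy] at hyV
      exact heV this
    · apply hf.isOpen_biInter
      intro e _
      exact TopologicalSpace.isOpen_generateFrom_of_mem ⟨_, rfl⟩
    · apply Set.mem_iInter₂.2
      intro e he hle
      have : e ∈ (closure {e})ᶜ := hle (hEU he)
      exact this (subset_closure rfl)
  · exact le_generateFrom (by rintro _ ⟨A, rfl⟩; exact upper_basic_scott A)

theorem scott_iSup {ι : Type*} [Nonempty ι] {s : Set (Opens X)}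
    (hs : IsOpen[Topology.scott (Opens X) Set.univ] s) (f : ι → Opens X)
    (hf : Directed (· ≤ ·) f) (h : iSup f ∈ s) : ∃ i, f i ∈ s := by
  rw [scott_isOpen_iff] at hs
  obtain ⟨_, ⟨i, rfl⟩, hi⟩ := hs.2 (Set.range f) (Set.range_nonempty f) hf.directedOn_range h
  exact ⟨i, hi⟩

theorem scott_upper {s : Set (Opens X)}
    (hs : IsOpen[Topology.scott (Opens X) Set.univ] s) {U V : Opens X} (hU : U ∈ s)
    (hUV : (U : Set X) ⊆ V) : V ∈ s :=
  ((scott_isOpen_iff s).1 hs).1 hUV hU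

end General

/-! ### The space -/

/-- Points of the space: two copies `p`, `q` of `ℕ × Ω` and two further points `a`, `b`. -/
inductive Pt (Ω : Type u) : Type u
  | p (m : ℕ) (η : Ω) : Pt Ω
  | q (m : ℕ) (η : Ω) : Pt Ω
  | a : Pt Ω
  | b : Pt Ω

open Pt

section Space

variable {Ω : Type u} [LinearOrder Ω]

/-- The open sets. -/
def PtOpen (V : Set (Pt Ω)) : Prop :=
  (∀ m m' η η', m' ≤ m → η ≤ η' → p m η ∈ V → p m' η' ∈ V) ∧
  (∀ m m' η η', m ≤ m' → η' ≤ η → q m η ∈ V → q m' η' ∈ V) ∧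
  (a ∈ V → (∀ m η, q m η ∈ V) ∧ ∃ β, ∀ m η, β ≤ η → p m η ∈ V) ∧
  (b ∈ V → (∀ m η, p m η ∈ V) ∧ ∃ n, ∀ m η, n ≤ m → q m η ∈ V)

instance ptTopology [Nonempty Ω] : TopologicalSpace (Pt Ω) where
  IsOpen := PtOpen
  isOpen_univ := ⟨fun _ _ _ _ _ _ _ => trivial, fun _ _ _ _ _ _ _ => trivial,
    fun _ => ⟨fun _ _ => trivial, Classical.arbitrary Ω, fun _ _ _ => trivial⟩,
    fun _ => ⟨fun _ _ => trivial, 0, fun _ _ _ => trivial⟩⟩
  isOpen_inter := by
    rintro s t ⟨s1, s2, s3, s4⟩ ⟨t1, t2, t3, t4⟩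
    refine ⟨fun m m' η η' h h' hm => ⟨s1 _ _ _ _ h h' hm.1, t1 _ _ _ _ h h' hm.2⟩,
      fun m m' η η' h h' hm => ⟨s2 _ _ _ _ h h' hm.1, t2 _ _ _ _ h h' hm.2⟩, ?_, ?_⟩
    · rintro ⟨hs, ht⟩
      obtain ⟨hs1, β₁, hβ₁⟩ := s3 hs
      obtain ⟨ht1, β₂, hβ₂⟩ := t3 ht
      exact ⟨fun m η => ⟨hs1 m η, ht1 m η⟩, max β₁ β₂, fun m η hη =>
        ⟨hβ₁ m η ((le_max_left _ _).trans hη), hβ₂ m η ((le_max_right _ _).trans hη)⟩⟩
    · rintro ⟨hs, ht⟩
      obtain ⟨hs1, n₁, hn₁⟩ := s4 hs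
      obtain ⟨ht1, n₂, hn₂⟩ := t4 ht
      exact ⟨fun m η => ⟨hs1 m η, ht1 m η⟩, max n₁ n₂, fun m η hm =>
        ⟨hn₁ m η ((le_max_left _ _).trans hm), hn₂ m η ((le_max_right _ _).trans hm)⟩⟩
  isOpen_sUnion := by
    intro S hS
    refine ⟨?_, ?_, ?_, ?_⟩
    · rintro m m' η η' h h' ⟨t, ht, hmt⟩
      exact ⟨t, ht, (hS t ht).1 _ _ _ _ h h' hmt⟩
    · rintro m m' η η' h h' ⟨t, ht, hmt⟩
      exact ⟨t, ht, (hS t ht).2.1 _ _ _ _ h h' hmt⟩
    · rintro ⟨t, ht, hat⟩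
      obtain ⟨h1, β, hβ⟩ := (hS t ht).2.2.1 hat
      exact ⟨fun m η => ⟨t, ht, h1 m η⟩, β, fun m η hη => ⟨t, ht, hβ m η hη⟩⟩
    · rintro ⟨t, ht, hbt⟩
      obtain ⟨h1, n, hn⟩ := (hS t ht).2.2.2 hbt
      exact ⟨fun m η => ⟨t, ht, h1 m η⟩, n, fun m η hm => ⟨t, ht, hn m η hm⟩⟩

theorem ptOpen_iff [Nonempty Ω] {V : Set (Pt Ω)} : IsOpen V ↔ PtOpen V := Iff.rfl

/-- The smallest open set containing a point `p m η` or `q m η` (and empty for `a`, `b`). -/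
def pr (x : Pt Ω) : Set (Pt Ω) :=
  match x with
  | p m η => {y | ∃ m' η', y = p m' η' ∧ m' ≤ m ∧ η ≤ η'}
  | q m η => {y | ∃ m' η', y = q m' η' ∧ m ≤ m' ∧ η' ≤ η}
  | a => ∅
  | b => ∅

theorem pr_open (x : Pt Ω) : PtOpen (pr x) := by
  cases x with
  | p m η =>
    refine ⟨?_, ?_, ?_, ?_⟩
    · rintro k k' ξ ξ' h h' ⟨_, _, h1, h2, h3⟩
      cases h1
      exact ⟨_, _, rfl, h.trans h2, h3.trans h'⟩
    · rintro k k' ξ ξ' h h' ⟨_, _, h1, h2, h3⟩
      cases h1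
    · rintro ⟨_, _, h1, h2, h3⟩
      cases h1
    · rintro ⟨_, _, h1, h2, h3⟩
      cases h1
  | q m η =>
    refine ⟨?_, ?_, ?_, ?_⟩
    · rintro k k' ξ ξ' h h' ⟨_, _, h1, h2, h3⟩
      cases h1
    · rintro k k' ξ ξ' h h' ⟨_, _, h1, h2, h3⟩
      cases h1
      exact ⟨_, _, rfl, h2.trans h, h'.trans h3⟩
    · rintro ⟨_, _, h1, h2, h3⟩
      cases h1
    · rintro ⟨_, _, h1, h2, h3⟩
      cases h1
  | a => exact ⟨fun _ _ _ _ _ _ h => h.elim, fun _ _ _ _ _ _ h => h.elim, fun h => h.elim,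
      fun h => h.elim⟩
  | b => exact ⟨fun _ _ _ _ _ _ h => h.elim, fun _ _ _ _ _ _ h => h.elim, fun h => h.elim,
      fun h => h.elim⟩

theorem pr_subset {V : Set (Pt Ω)} (hV : PtOpen V) {x : Pt Ω} (hx : x ∈ V) : pr x ⊆ V := by
  cases x with
  | p m η =>
    rintro _ ⟨m', η', rfl, h1, h2⟩
    exact hV.1 _ _ _ _ h1 h2 hx
  | q m η =>
    rintro _ ⟨m', η', rfl, h1, h2⟩
    exact hV.2.1 _ _ _ _ h1 h2 hx
  | a => exact Set.empty_subset _
  | b => exact Set.empty_subset _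

theorem mem_pr_p (m : ℕ) (η : Ω) : p m η ∈ pr (p m η) := ⟨m, η, rfl, le_rfl, le_rfl⟩

theorem mem_pr_q (m : ℕ) (η : Ω) : q m η ∈ pr (q m η) := ⟨m, η, rfl, le_rfl, le_rfl⟩

variable [Nonempty Ω]

theorem isOpen_pr (x : Pt Ω) : IsOpen (pr x) := pr_open x

/-- the open set generated by a set of points `E` together with an open set `R`. -/
def gen (E : Set (Pt Ω)) (R : Opens (Pt Ω)) : Opens (Pt Ω) :=
  ⟨(⋃ e ∈ E, pr e) ∪ R, (isOpen_biUnion fun e _ => isOpen_pr e).union R.isOpen⟩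

theorem gen_subset {E : Set (Pt Ω)} {R V : Opens (Pt Ω)} (hE : E ⊆ V) (hR : (R : Set (Pt Ω)) ⊆ V) :
    (gen E R : Set (Pt Ω)) ⊆ V := by
  apply Set.union_subset _ hR
  exact Set.iUnion₂_subset fun e he => pr_subset V.isOpen (hE he)

/-- If an open set `U` in a Scott open family `s` contains the open set `R`, and `R` contains `a`,
`b` whenever `U` does, then some finitely generated `gen E R` is in `s`. -/
theorem exists_gen {s : Set (Opens (Pt Ω))}
    (hs : IsOpen[Topology.scott (Opens (Pt Ω)) Set.univ] s) {U : Opens (Pt Ω)} (hU : U ∈ s)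
    (R : Opens (Pt Ω)) (ha : a ∈ U → a ∈ R) (hb : b ∈ U → b ∈ R) :
    ∃ E : Set (Pt Ω), E.Finite ∧ E ⊆ U ∧ gen E R ∈ s := by
  classical
  have hne : Nonempty {E : Finset (Pt Ω) // (E : Set (Pt Ω)) ⊆ U} := ⟨⟨∅, by simp⟩⟩
  have key := scott_iSup (ι := {E : Finset (Pt Ω) // (E : Set (Pt Ω)) ⊆ U}) hs
    (fun E => gen (E.1 : Set (Pt Ω)) R) ?_ ?_
  · obtain ⟨E, hE⟩ := key
    exact ⟨E.1, E.1.finite_toSet, E.2, hE⟩
  · rintro ⟨E, hE⟩ ⟨F, hF⟩
    refine ⟨⟨E ∪ F, by simpa using ⟨hE, hF⟩⟩, ?_, ?_⟩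
    · intro x hx
      rcases hx with hx | hx
      · left
        obtain ⟨e, he, hxe⟩ := Set.mem_iUnion₂.1 hx
        exact Set.mem_iUnion₂.2 ⟨e, by simpa using Or.inl he, hxe⟩
      · exact Or.inr hx
    · intro x hx
      rcases hx with hx | hx
      · left
        obtain ⟨e, he, hxe⟩ := Set.mem_iUnion₂.1 hx
        exact Set.mem_iUnion₂.2 ⟨e, by simpa using Or.inr he, hxe⟩
      · exact Or.inr hx
  · refine scott_upper hs hU ?_
    intro x hx
    rw [Opens.coe_iSup]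
    have hsing : ∀ y : Pt Ω, y ∈ U → y ∈ pr y →
        y ∈ ⋃ i : {E : Finset (Pt Ω) // (E : Set (Pt Ω)) ⊆ U},
          (gen (i.1 : Set (Pt Ω)) R : Set (Pt Ω)) := by
      intro y hy hyy
      refine Set.mem_iUnion.2 ⟨⟨{y}, by simpa using hy⟩, Or.inl ?_⟩
      exact Set.mem_iUnion₂.2 ⟨y, by simp, hyy⟩
    cases x with
    | p m η => exact hsing _ hx (mem_pr_p m η)
    | q m η => exact hsing _ hx (mem_pr_q m η)
    | a => exact Set.mem_iUnion.2 ⟨⟨∅, by simp⟩, Or.inr (ha hx)⟩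
    | b => exact Set.mem_iUnion.2 ⟨⟨∅, by simp⟩, Or.inr (hb hx)⟩

/-- basic neighbourhoods of `a`, enlarged by a piece `m ≤ k`, `β₀ ≤ η` of the first copy. -/
def nbA (β₀ β : Ω) (k : ℕ) : Opens (Pt Ω) :=
  ⟨{x | x = a ∨ (∃ m η, x = q m η) ∨ ∃ m η, x = p m η ∧ ((m ≤ k ∧ β₀ ≤ η) ∨ β ≤ η)}, by
    refine ⟨?_, ?_, ?_, ?_⟩
    · rintro m m' η η' h h' (h1 | ⟨_, _, h1⟩ | ⟨_, _, h1, h2⟩)
      · cases h1
      · cases h1
      · cases h1
        refine Or.inr (Or.inr ⟨_, _, rfl, ?_⟩)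
        rcases h2 with h2 | h2
        · exact Or.inl ⟨h.trans h2.1, h2.2.trans h'⟩
        · exact Or.inr (h2.trans h')
    · exact fun m m' η η' _ _ _ => Or.inr (Or.inl ⟨_, _, rfl⟩)
    · exact fun _ => ⟨fun m η => Or.inr (Or.inl ⟨_, _, rfl⟩), β,
        fun m η h => Or.inr (Or.inr ⟨_, _, rfl, Or.inr h⟩)⟩
    · rintro (h1 | ⟨_, _, h1⟩ | ⟨_, _, h1, h2⟩) <;> cases h1⟩

/-- basic neighbourhoods of `b`, enlarged by a piece `n₀ ≤ m`, `η ≤ γ` of the second copy. -/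
def nbB (n₀ n : ℕ) (γ : Ω) : Opens (Pt Ω) :=
  ⟨{x | x = b ∨ (∃ m η, x = p m η) ∨ ∃ m η, x = q m η ∧ ((n₀ ≤ m ∧ η ≤ γ) ∨ n ≤ m)}, by
    refine ⟨?_, ?_, ?_, ?_⟩
    · exact fun m m' η η' _ _ _ => Or.inr (Or.inl ⟨_, _, rfl⟩)
    · rintro m m' η η' h h' (h1 | ⟨_, _, h1⟩ | ⟨_, _, h1, h2⟩)
      · cases h1
      · cases h1
      · cases h1
        refine Or.inr (Or.inr ⟨_, _, rfl, ?_⟩)
        rcases h2 with h2 | h2
        · exact Or.inl ⟨h2.1.trans h, h'.trans h2.2⟩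
        · exact Or.inr (h2.trans h)
    · rintro (h1 | ⟨_, _, h1⟩ | ⟨_, _, h1, h2⟩) <;> cases h1
    · exact fun _ => ⟨fun m η => Or.inr (Or.inl ⟨_, _, rfl⟩), n,
        fun m η h => Or.inr (Or.inr ⟨_, _, rfl, Or.inr h⟩)⟩⟩

/-- The space `Pt Ω` is co-consonant when every countable subset of `Ω` is strictly bounded. -/
theorem coConsonant_pt (hΩ : ∀ f : ℕ → Ω, ∃ β, ∀ n, f n < β) : CoConsonant (Pt Ω) := by
  classical
  apply coConsonant_of_finite
  intro s hs U hU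
  by_cases ha : a ∈ U
  · by_cases hb : b ∈ U
    · -- `U` is everything
      refine ⟨{a, b}, by simp, ?_, fun V hV => scott_upper hs hU ?_⟩
      · rintro x (rfl | rfl)
        · exact ha
        · exact hb
      · have haV : a ∈ (V : Set (Pt Ω)) := hV (by simp)
        have hbV : b ∈ (V : Set (Pt Ω)) := hV (by simp)
        intro x _
        cases x with
        | p m η => exact (V.isOpen.2.2.2 hbV).1 m η
        | q m η => exact (V.isOpen.2.2.1 haV).1 m η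
        | a => exact haV
        | b => exact hbV
    · -- `a ∈ U`, `b ∉ U`
      obtain ⟨hq, β₀, hβ₀⟩ := U.isOpen.2.2.1 ha
      obtain ⟨E, hEf, hEU, hE⟩ := exists_gen hs hU (nbA β₀ β₀ 0) (fun _ => Or.inl rfl)
        (fun h => (hb h).elim)
      by_contra hcon
      push Not at hcon
      have hk : ∀ k : ℕ, ∃ V : Opens (Pt Ω), insert a (insert (p k β₀) E) ⊆ (V : Set (Pt Ω)) ∧
          V ∉ s := by
        intro k
        refine hcon _ ((hEf.insert _).insert _) ?_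
        rintro x (rfl | rfl | hx)
        · exact ha
        · exact hβ₀ k β₀ le_rfl
        · exact hEU hx
      choose V hV hVs using hk
      have haV : ∀ k, a ∈ (V k : Set (Pt Ω)) := fun k => hV k (by simp)
      have htail := fun k => ((V k).isOpen.2.2.1 (haV k)).2
      choose β hβ using htail
      obtain ⟨β', hβ'⟩ := hΩ β
      have key := scott_iSup hs (fun k : ℕ => gen E (nbA β₀ β' k)) ?_ ?_
      · obtain ⟨k, hk⟩ := key
        refine hVs k (scott_upper hs hk (gen_subset ?_ ?_))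
        · exact fun x hx => hV k (by simp [hx])
        · rintro x (rfl | ⟨m, η, rfl⟩ | ⟨m, η, rfl, h | h⟩)
          · exact haV k
          · exact ((V k).isOpen.2.2.1 (haV k)).1 m η
          · exact (V k).isOpen.1 _ _ _ _ h.1 h.2 (hV k (by simp : p k β₀ ∈ _))
          · exact hβ k m η ((hβ' k).le.trans h)
      · apply Monotone.directed_le
        intro k l hkl x hx
        rcases hx with hx | hx | hx | ⟨m, η, hx, h | h⟩
        · exact Or.inl hx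
        · exact Or.inr (Or.inl hx)
        · exact Or.inr (Or.inr (Or.inl hx))
        · exact Or.inr (Or.inr (Or.inr ⟨m, η, hx, Or.inl ⟨h.1.trans hkl, h.2⟩⟩))
        · exact Or.inr (Or.inr (Or.inr ⟨m, η, hx, Or.inr h⟩))
      · refine scott_upper hs hE ?_
        rw [Opens.coe_iSup]
        intro x hx
        rcases hx with hx | hx | hx | ⟨m, η, hx, h⟩
        · exact Set.mem_iUnion.2 ⟨0, Or.inl hx⟩
        · exact Set.mem_iUnion.2 ⟨0, Or.inr (Or.inl hx)⟩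
        · exact Set.mem_iUnion.2 ⟨0, Or.inr (Or.inr (Or.inl hx))⟩
        · refine Set.mem_iUnion.2 ⟨m, Or.inr (Or.inr (Or.inr ⟨m, η, hx, Or.inl ⟨le_rfl, ?_⟩⟩))⟩
          rcases h with h | h
          · exact h.2
          · exact h
  · by_cases hb : b ∈ U
    · -- `b ∈ U`, `a ∉ U`
      obtain ⟨hp, n₀, hn₀⟩ := U.isOpen.2.2.2 hb
      obtain ⟨E, hEf, hEU, hE⟩ := exists_gen hs hU (nbB n₀ n₀ (Classical.arbitrary Ω))
        (fun h => (ha h).elim) (fun _ => Or.inl rfl)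
      by_contra hcon
      push Not at hcon
      have hk : ∀ γ : Ω, ∃ V : Opens (Pt Ω), insert b (insert (q n₀ γ) E) ⊆ (V : Set (Pt Ω)) ∧
          V ∉ s := by
        intro γ
        refine hcon _ ((hEf.insert _).insert _) ?_
        rintro x (rfl | rfl | hx)
        · exact hb
        · exact hn₀ n₀ γ le_rfl
        · exact hEU hx
      choose V hV hVs using hk
      have hbV : ∀ γ, b ∈ (V γ : Set (Pt Ω)) := fun γ => hV γ (by simp)
      have htail := fun γ => ((V γ).isOpen.2.2.2 (hbV γ)).2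
      choose n hn using htail
      -- some fibre of `n` is cofinal
      have hfib : ∃ n₁ : ℕ, ∀ γ : Ω, ∃ γ', γ ≤ γ' ∧ n γ' = n₁ := by
        by_contra hno
        push Not at hno
        choose g hg using hno
        obtain ⟨γ, hγ⟩ := hΩ g
        exact hg (n γ) γ (hγ _).le rfl
      obtain ⟨n₁, hn₁⟩ := hfib
      have hne : Nonempty {γ : Ω // n γ = n₁} := by
        obtain ⟨γ, _, hγ⟩ := hn₁ (Classical.arbitrary Ω)
        exact ⟨⟨γ, hγ⟩⟩
      have key := scott_iSup (ι := {γ : Ω // n γ = n₁}) hs (fun γ => gen E (nbB n₀ n₁ γ.1)) ?_ ?_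
      · obtain ⟨⟨γ, hγ⟩, hk⟩ := key
        refine hVs γ (scott_upper hs hk (gen_subset ?_ ?_))
        · exact fun x hx => hV γ (by simp [hx])
        · rintro x (rfl | ⟨m, η, rfl⟩ | ⟨m, η, rfl, h | h⟩)
          · exact hbV γ
          · exact ((V γ).isOpen.2.2.2 (hbV γ)).1 m η
          · exact (V γ).isOpen.2.1 _ _ _ _ h.1 h.2 (hV γ (by simp : q n₀ γ ∈ _))
          · exact hn γ m η (hγ.le.trans h)
      · have hmono : Monotone (fun γ : {γ : Ω // n γ = n₁} => gen E (nbB n₀ n₁ γ.1)) := by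
          intro k l hkl x hx
          rcases hx with hx | hx | hx | ⟨m, η, hx, h | h⟩
          · exact Or.inl hx
          · exact Or.inr (Or.inl hx)
          · exact Or.inr (Or.inr (Or.inl hx))
          · exact Or.inr (Or.inr (Or.inr ⟨m, η, hx, Or.inl ⟨h.1, h.2.trans hkl⟩⟩))
          · exact Or.inr (Or.inr (Or.inr ⟨m, η, hx, Or.inr h⟩))
        exact hmono.directed_le
      · refine scott_upper hs hE ?_
        rw [Opens.coe_iSup]
        intro x hx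
        obtain ⟨γ₀, _, hγ₀⟩ := hn₁ (Classical.arbitrary Ω)
        rcases hx with hx | hx | hx | ⟨m, η, hx, h⟩
        · exact Set.mem_iUnion.2 ⟨⟨γ₀, hγ₀⟩, Or.inl hx⟩
        · exact Set.mem_iUnion.2 ⟨⟨γ₀, hγ₀⟩, Or.inr (Or.inl hx)⟩
        · exact Set.mem_iUnion.2 ⟨⟨γ₀, hγ₀⟩, Or.inr (Or.inr (Or.inl hx))⟩
        · obtain ⟨γ', hγ', hγn⟩ := hn₁ η
          refine Set.mem_iUnion.2 ⟨⟨γ', hγn⟩,
            Or.inr (Or.inr (Or.inr ⟨m, η, hx, Or.inl ⟨?_, hγ'⟩⟩))⟩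
          rcases h with h | h
          · exact h.1
          · exact h
    · -- neither
      obtain ⟨E, hEf, hEU, hE⟩ := exists_gen hs hU ⊥ (fun h => (ha h).elim) (fun h => (hb h).elim)
      exact ⟨E, hEf, hEU, fun V hV => scott_upper hs hE (gen_subset hV (by simp))⟩

theorem ptOpen_compl_b : PtOpen ({b}ᶜ : Set (Pt Ω)) := by
  refine ⟨?_, ?_, ?_, ?_⟩
  · intro m m' η η' _ _ _; simp
  · intro m m' η η' _ _ _; simp
  · exact fun _ => ⟨by simp, Classical.arbitrary Ω, by simp⟩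
  · exact fun h => (h rfl).elim

omit [Nonempty Ω] in
theorem ptOpen_compl_a : PtOpen ({a}ᶜ : Set (Pt Ω)) := by
  refine ⟨?_, ?_, ?_, ?_⟩
  · intro m m' η η' _ _ _; simp
  · intro m m' η η' _ _ _; simp
  · exact fun h => (h rfl).elim
  · exact fun _ => ⟨by simp, 0, by simp⟩

/-- The space is `T0`. -/
theorem t0_pt : T0Space (Pt Ω) := by
  refine ⟨fun x y hxy => ?_⟩
  have hpr : ∀ z : Pt Ω, x ∈ pr z ↔ y ∈ pr z := fun z => hxy.mem_open_iff (isOpen_pr z)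
  have ha : IsOpen ({b}ᶜ : Set (Pt Ω)) := ptOpen_compl_b
  have hbb := hxy.mem_open_iff ha
  cases x with
  | p m η =>
    obtain ⟨m₁, η₁, h1, h2, h3⟩ := (hpr (p m η)).1 (mem_pr_p m η)
    subst h1
    obtain ⟨m₂, η₂, h1', h2', h3'⟩ := (hpr (p m₁ η₁)).2 (mem_pr_p m₁ η₁)
    cases h1'
    rw [le_antisymm h2 h2', le_antisymm h3 h3']
  | q m η =>
    obtain ⟨m₁, η₁, h1, h2, h3⟩ := (hpr (q m η)).1 (mem_pr_q m η)
    subst h1
    obtain ⟨m₂, η₂, h1', h2', h3'⟩ := (hpr (q m₁ η₁)).2 (mem_pr_q m₁ η₁)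
    cases h1'
    rw [le_antisymm h2 h2', le_antisymm h3 h3']
  | a =>
    cases y with
    | p m η =>
      obtain ⟨_, _, h, _⟩ := (hpr (p m η)).2 (mem_pr_p m η)
      cases h
    | q m η =>
      obtain ⟨_, _, h, _⟩ := (hpr (q m η)).2 (mem_pr_q m η)
      cases h
    | a => rfl
    | b => exact absurd rfl (hbb.1 (fun h => by cases h))
  | b =>
    cases y with
    | p m η =>
      obtain ⟨_, _, h, _⟩ := (hpr (p m η)).2 (mem_pr_p m η)
      cases h
    | q m η =>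
      obtain ⟨_, _, h, _⟩ := (hpr (q m η)).2 (mem_pr_q m η)
      cases h
    | a => exact absurd rfl (hbb.2 (fun h => by cases h))
    | b => rfl

/-! ### The lower powerspace is not co-consonant -/

/-- closure of a point, as a point of the lower powerspace -/
def cl (S : Set (Pt Ω)) : LowerPowerspace (Pt Ω) := (⟨closure S, isClosed_closure⟩ : Closeds (Pt Ω))

/-- the open set of all closed sets meeting `U` -/
def dia (U : Opens (Pt Ω)) : Opens (LowerPowerspace (Pt Ω)) :=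
  ⟨{F : Closeds (Pt Ω) | ((F : Set (Pt Ω)) ∩ (U : Set (Pt Ω))).Nonempty},
    TopologicalSpace.isOpen_generateFrom_of_mem ⟨U, rfl⟩⟩

theorem cl_mem_dia {S : Set (Pt Ω)} {U : Opens (Pt Ω)} :
    cl S ∈ dia U ↔ (S ∩ (U : Set (Pt Ω))).Nonempty := by
  change ((closure S) ∩ (U : Set (Pt Ω))).Nonempty ↔ _
  exact closure_inter_open_nonempty_iff U.isOpen

/-- The condition at `(n, β)`. -/
def Cond (W : Set (LowerPowerspace (Pt Ω))) (n : ℕ) (β : Ω) : Prop :=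
  (∃ m η, n ≤ m ∧ η < β ∧ cl {p m η} ∈ W) ∨ (∃ m η, m < n ∧ β ≤ η ∧ cl {q m η} ∈ W)

/-- An open neighbourhood of `cl {a, b}` contains `cl {p m η}` for all large `η`, and
`cl {q m η}` for all large `m`. -/
theorem nhds_ab (S : Set (LowerPowerspace (Pt Ω))) (hS : IsOpen S) :
    cl {a, b} ∈ S → ∃ (β₀ : Ω) (n₀ : ℕ), ∀ m η, (β₀ ≤ η → cl {p m η} ∈ S) ∧
      (n₀ ≤ m → cl {q m η} ∈ S) := by
  induction hS with
  | basic t ht =>
    obtain ⟨U, rfl⟩ := ht
    intro h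
    have h' : (({a, b} : Set (Pt Ω)) ∩ (U : Set (Pt Ω))).Nonempty := cl_mem_dia.1 h
    obtain ⟨x, hx | hx, hxU⟩ := h'
    · subst hx
      obtain ⟨h1, β, hβ⟩ := U.isOpen.2.2.1 hxU
      exact ⟨β, 0, fun m η => ⟨fun hη => cl_mem_dia.2 ⟨_, rfl, hβ m η hη⟩,
        fun _ => cl_mem_dia.2 ⟨_, rfl, h1 m η⟩⟩⟩
    · have hx' : x = b := hx
      subst hx'
      obtain ⟨h1, n, hn⟩ := U.isOpen.2.2.2 hxU
      exact ⟨Classical.arbitrary Ω, n, fun m η => ⟨fun _ => cl_mem_dia.2 ⟨_, rfl, h1 m η⟩,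
        fun hm => cl_mem_dia.2 ⟨_, rfl, hn m η hm⟩⟩⟩
  | univ => exact fun _ => ⟨Classical.arbitrary Ω, 0, fun _ _ => ⟨fun _ => trivial,
      fun _ => trivial⟩⟩
  | inter t₁ t₂ _ _ h₁ h₂ =>
    rintro ⟨h1, h2⟩
    obtain ⟨β₁, n₁, hh₁⟩ := h₁ h1
    obtain ⟨β₂, n₂, hh₂⟩ := h₂ h2
    exact ⟨max β₁ β₂, max n₁ n₂, fun m η =>
      ⟨fun h => ⟨(hh₁ m η).1 ((le_max_left _ _).trans h), (hh₂ m η).1 ((le_max_right _ _).trans h)⟩,
      fun h => ⟨(hh₁ m η).2 ((le_max_left _ _).trans h),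
        (hh₂ m η).2 ((le_max_right _ _).trans h)⟩⟩⟩
  | sUnion T _ h =>
    rintro ⟨t, ht, hab⟩
    obtain ⟨β, n, hh⟩ := h t ht hab
    exact ⟨β, n, fun m η => ⟨fun h => ⟨t, ht, (hh m η).1 h⟩, fun h => ⟨t, ht, (hh m η).2 h⟩⟩⟩

/-- The bad Scott open family. -/
def Bad (Ω : Type u) [LinearOrder Ω] [Nonempty Ω] : Set (Opens (LowerPowerspace (Pt Ω))) :=
  {W | cl {a, b} ∈ W ∧ ∀ (n : ℕ) (β : Ω), 1 ≤ n → (∃ γ, γ < β) →
    Cond (W : Set (LowerPowerspace (Pt Ω))) n β}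

theorem Cond.mono {W W' : Set (LowerPowerspace (Pt Ω))} (h : W ⊆ W') {n : ℕ} {β : Ω}
    (hc : Cond W n β) : Cond W' n β := by
  rcases hc with ⟨m, η, h1, h2, h3⟩ | ⟨m, η, h1, h2, h3⟩
  · exact Or.inl ⟨m, η, h1, h2, h h3⟩
  · exact Or.inr ⟨m, η, h1, h2, h h3⟩

theorem bad_scott [WellFoundedLT Ω] :
    IsOpen[Topology.scott (Opens (LowerPowerspace (Pt Ω))) Set.univ] (Bad Ω) := by
  rw [scott_isOpen_iff]
  refine ⟨?_, ?_⟩
  · intro V W hVW hV
    exact ⟨hVW hV.1, fun n β hn hβ => (hV.2 n β hn hβ).mono hVW⟩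
  · rintro d hd hdir ⟨hab, hcond⟩
    have hmem : ∀ x : LowerPowerspace (Pt Ω), x ∈ sSup d → ∃ V ∈ d, x ∈ V := by
      intro x hx
      simpa using hx
    obtain ⟨V₀, hV₀d, hV₀⟩ := hmem _ hab
    obtain ⟨β₀, n₀, h₀⟩ := nhds_ab (V₀ : Set (LowerPowerspace (Pt Ω))) V₀.isOpen hV₀
    -- for each `n`, one member of `d` works for all `β' ≤ β`
    have hcol : ∀ n : ℕ, 1 ≤ n → ∀ β : Ω, ∃ V ∈ d, ∀ β' ≤ β, (∃ γ, γ < β') →
        Cond (V : Set (LowerPowerspace (Pt Ω))) n β' := by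
      intro n hn β
      induction β using WellFoundedLT.induction with
      | ind β ih =>
        by_cases hβ : ∃ γ, γ < β
        · rcases hcond n β hn hβ with ⟨m, η, h1, h2, h3⟩ | ⟨m, η, h1, h2, h3⟩
          · obtain ⟨V₁, hV₁d, hV₁⟩ := ih η h2
            obtain ⟨V₂, hV₂d, hV₂⟩ := hmem _ h3
            obtain ⟨V₃, hV₃d, h13, h23⟩ := hdir V₁ hV₁d V₂ hV₂d
            refine ⟨V₃, hV₃d, fun β' hβ' hγ => ?_⟩
            by_cases hlt : η < β'
            · exact Or.inl ⟨m, η, h1, hlt, h23 hV₂⟩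
            · exact (hV₁ β' (not_lt.1 hlt) hγ).mono h13
          · obtain ⟨V₂, hV₂d, hV₂⟩ := hmem _ h3
            exact ⟨V₂, hV₂d, fun β' hβ' _ => Or.inr ⟨m, η, h1, hβ'.trans h2, hV₂⟩⟩
        · exact ⟨V₀, hV₀d, fun β' hβ' ⟨γ, hγ⟩ => (hβ ⟨γ, hγ.trans_le hβ'⟩).elim⟩
    -- one member of `d` works for all `n ≤ N`
    have hall : ∀ N : ℕ, ∃ V ∈ d, V₀ ≤ V ∧ ∀ n, 1 ≤ n → n ≤ N → ∀ β' ≤ β₀, (∃ γ, γ < β') →
        Cond (V : Set (LowerPowerspace (Pt Ω))) n β' := by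
      intro N
      induction N with
      | zero => exact ⟨V₀, hV₀d, le_rfl, fun n h1 h2 => by omega⟩
      | succ N ih =>
        obtain ⟨V₁, hV₁d, h01, hV₁⟩ := ih
        obtain ⟨V₂, hV₂d, hV₂⟩ := hcol (N + 1) (by omega) β₀
        obtain ⟨V₃, hV₃d, h13, h23⟩ := hdir V₁ hV₁d V₂ hV₂d
        refine ⟨V₃, hV₃d, h01.trans h13, fun n h1 h2 β' hβ' hγ => ?_⟩
        rcases Nat.lt_or_ge N n with h | h
        · have : n = N + 1 := by omega
          subst this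
          exact (hV₂ β' hβ' hγ).mono h23
        · exact (hV₁ n h1 h β' hβ' hγ).mono h13
    obtain ⟨V, hVd, h0V, hV⟩ := hall n₀
    refine ⟨V, hVd, h0V hV₀, fun n β hn hβ => ?_⟩
    rcases lt_or_ge β₀ β with hlt | hle
    · exact Or.inl ⟨n, β₀, le_rfl, hlt, h0V ((h₀ n β₀).1 le_rfl)⟩
    · rcases Nat.lt_or_ge n₀ n with hlt | hge
      · exact Or.inr ⟨n₀, β, hlt, le_rfl, h0V ((h₀ n₀ β).2 le_rfl)⟩
      · exact hV n hn hge β hle hβ

/-- `W ∪ {a}` -/
def opA (Ω : Type u) [LinearOrder Ω] [Nonempty Ω] : Opens (Pt Ω) :=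
  ⟨{b}ᶜ, ptOpen_compl_b⟩

/-- `W ∪ {b}` -/
def opB (Ω : Type u) [LinearOrder Ω] [Nonempty Ω] : Opens (Pt Ω) :=
  ⟨{a}ᶜ, ptOpen_compl_a⟩

theorem mem_bad [WellFoundedLT Ω] : dia (opA Ω) ⊓ dia (opB Ω) ∈ Bad Ω := by
  refine ⟨⟨cl_mem_dia.2 ⟨a, Or.inl rfl, fun h => by cases h⟩,
    cl_mem_dia.2 ⟨b, Or.inr rfl, fun h => by cases h⟩⟩, ?_⟩
  rintro n β _ ⟨γ, hγ⟩
  exact Or.inl ⟨n, γ, le_rfl, hγ, cl_mem_dia.2 ⟨_, rfl, fun h => by cases h⟩,
    cl_mem_dia.2 ⟨_, rfl, fun h => by cases h⟩⟩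

/-- neighbourhood of `a` attached to `(n, β)` -/
def oA (n : ℕ) (β : Ω) : Opens (Pt Ω) :=
  ⟨{x | x = a ∨ (∃ m η, x = q m η) ∨ ∃ m η, x = p m η ∧ (m < n ∨ β ≤ η)}, by
    refine ⟨?_, ?_, ?_, ?_⟩
    · rintro m m' η η' h h' (h1 | ⟨_, _, h1⟩ | ⟨_, _, h1, h2⟩)
      · cases h1
      · cases h1
      · cases h1
        refine Or.inr (Or.inr ⟨_, _, rfl, ?_⟩)
        rcases h2 with h2 | h2
        · exact Or.inl (h.trans_lt h2)
        · exact Or.inr (h2.trans h')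
    · exact fun m m' η η' _ _ _ => Or.inr (Or.inl ⟨_, _, rfl⟩)
    · exact fun _ => ⟨fun m η => Or.inr (Or.inl ⟨_, _, rfl⟩), β,
        fun m η h => Or.inr (Or.inr ⟨_, _, rfl, Or.inr h⟩)⟩
    · rintro (h1 | ⟨_, _, h1⟩ | ⟨_, _, h1, h2⟩) <;> cases h1⟩

/-- neighbourhood of `b` attached to `(n, β)` -/
def oB (n : ℕ) (β : Ω) : Opens (Pt Ω) :=
  ⟨{x | x = b ∨ (∃ m η, x = p m η) ∨ ∃ m η, x = q m η ∧ (η < β ∨ n ≤ m)}, by
    refine ⟨?_, ?_, ?_, ?_⟩
    · exact fun m m' η η' _ _ _ => Or.inr (Or.inl ⟨_, _, rfl⟩)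
    · rintro m m' η η' h h' (h1 | ⟨_, _, h1⟩ | ⟨_, _, h1, h2⟩)
      · cases h1
      · cases h1
      · cases h1
        refine Or.inr (Or.inr ⟨_, _, rfl, ?_⟩)
        rcases h2 with h2 | h2
        · exact Or.inl (h'.trans_lt h2)
        · exact Or.inr (h2.trans h)
    · rintro (h1 | ⟨_, _, h1⟩ | ⟨_, _, h1, h2⟩) <;> cases h1
    · exact fun _ => ⟨fun m η => Or.inr (Or.inl ⟨_, _, rfl⟩), n,
        fun m η h => Or.inr (Or.inr ⟨_, _, rfl, Or.inr h⟩)⟩⟩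

theorem not_bad {n : ℕ} {β : Ω} (hn : 1 ≤ n) (hβ : ∃ γ, γ < β) :
    dia (oA n β) ⊓ dia (oB n β) ∉ Bad Ω := by
  rintro ⟨_, h⟩
  rcases h n β hn hβ with ⟨m, η, h1, h2, h3, _⟩ | ⟨m, η, h1, h2, _, h3⟩
  · obtain ⟨x, hx, h4⟩ := cl_mem_dia.1 h3
    rw [Set.mem_singleton_iff] at hx
    subst hx
    rcases h4 with h4 | ⟨_, _, h4⟩ | ⟨_, _, h4, h5⟩
    · cases h4
    · cases h4
    · cases h4
      rcases h5 with h5 | h5
      · omega
      · exact absurd h2 (not_lt.2 h5)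
  · obtain ⟨x, hx, h4⟩ := cl_mem_dia.1 h3
    rw [Set.mem_singleton_iff] at hx
    subst hx
    rcases h4 with h4 | ⟨_, _, h4⟩ | ⟨_, _, h4, h5⟩
    · cases h4
    · cases h4
    · cases h4
      rcases h5 with h5 | h5
      · exact absurd h5 (not_lt.2 h2)
      · omega

/-- Every closed set in the big open set is in `dia (oA n β) ⊓ dia (oB n β)` for all large
`n`, `β`. -/
theorem eventually_mem (hΩ : ∀ γ : Ω, ∃ β, γ < β) (F : LowerPowerspace (Pt Ω))
    (hF : F ∈ dia (opA Ω) ⊓ dia (opB Ω)) :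
    ∀ᶠ x : ℕ × Ω in Filter.atTop, F ∈ dia (oA x.1 x.2) ⊓ dia (oB x.1 x.2) := by
  obtain ⟨⟨x, hxF, hx⟩, ⟨y, hyF, hy⟩⟩ := hF
  have hcase : (∃ m η, p m η ∈ (show Closeds (Pt Ω) from F)) ∨
      (∃ m η, q m η ∈ (show Closeds (Pt Ω) from F)) ∨
      (a ∈ (show Closeds (Pt Ω) from F) ∧ b ∈ (show Closeds (Pt Ω) from F)) := by
    cases x with
    | p m η => exact Or.inl ⟨m, η, hxF⟩
    | q m η => exact Or.inr (Or.inl ⟨m, η, hxF⟩)
    | b => exact absurd rfl hx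
    | a =>
      cases y with
      | p m η => exact Or.inl ⟨m, η, hyF⟩
      | q m η => exact Or.inr (Or.inl ⟨m, η, hyF⟩)
      | a => exact absurd rfl hy
      | b => exact Or.inr (Or.inr ⟨hxF, hyF⟩)
  rcases hcase with ⟨m, η, h⟩ | ⟨m, η, h⟩ | ⟨h1, h2⟩
  · filter_upwards [Filter.eventually_ge_atTop (m + 1, η)] with z hz
    refine ⟨⟨p m η, h, Or.inr (Or.inr ⟨_, _, rfl, Or.inl ?_⟩)⟩,
      ⟨p m η, h, Or.inr (Or.inl ⟨_, _, rfl⟩)⟩⟩
    exact hz.1
  · obtain ⟨β, hβ⟩ := hΩ η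
    filter_upwards [Filter.eventually_ge_atTop (0, β)] with z hz
    exact ⟨⟨q m η, h, Or.inr (Or.inl ⟨_, _, rfl⟩)⟩,
      ⟨q m η, h, Or.inr (Or.inr ⟨_, _, rfl, Or.inl (hβ.trans_le hz.2)⟩)⟩⟩
  · exact Filter.Eventually.of_forall fun z => ⟨⟨a, h1, Or.inl rfl⟩, ⟨b, h2, Or.inl rfl⟩⟩

theorem not_coConsonant_lower [WellFoundedLT Ω] (hΩ : ∀ γ : Ω, ∃ β, γ < β) :
    ¬ CoConsonant (LowerPowerspace (Pt Ω)) := by
  intro hco
  have hopen : IsOpen[Topology.upper (Opens (LowerPowerspace (Pt Ω)))] (Bad Ω) := by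
    have h := bad_scott (Ω := Ω)
    rw [← hco] at h
    exact h
  obtain ⟨E, hEf, hEU, hE⟩ := upper_finite _ hopen _ mem_bad
  have h1 : ∀ᶠ x : ℕ × Ω in Filter.atTop, ∀ F ∈ E, F ∈ dia (oA x.1 x.2) ⊓ dia (oB x.1 x.2) :=
    (Filter.eventually_all_finite hEf).2 fun F hF => eventually_mem hΩ F (hEU hF)
  obtain ⟨β, hβ⟩ := hΩ (Classical.arbitrary Ω)
  have h2 : ∀ᶠ x : ℕ × Ω in Filter.atTop, ((1, β) : ℕ × Ω) ≤ x := Filter.eventually_ge_atTop _
  obtain ⟨x, hx1, hx2⟩ := (h1.and h2).exists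
  exact not_bad hx2.1 ⟨_, hβ.trans_le hx2.2⟩ (hE _ hx1)

end Space

/-- Countable subsets of `ω₁` are bounded. -/
theorem omega_one_bounded (f : ℕ → (Ordinal.omega.{u} 1).ToType) :
    ∃ β, ∀ n, f n < β := by
  have hlim : Order.IsSuccLimit (Ordinal.omega.{u} 1) := by
    rw [← Cardinal.ord_aleph]
    exact Cardinal.isSuccLimit_ord (Cardinal.aleph0_le_aleph 1)
  have h1 : ∀ n, (Ordinal.ToType.mk.symm (f n) : Ordinal.{u}) + 1 < Ordinal.omega.{u} 1 := by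
    intro n
    exact hlim.add_one_lt (Ordinal.ToType.mk.symm (f n)).2
  have h2 := Ordinal.iSup_lt_omega_one h1
  refine ⟨Ordinal.ToType.mk ⟨_, h2⟩, fun n => ?_⟩
  rw [← Ordinal.ToType.mk.symm.lt_iff_lt, OrderIso.symm_apply_apply]
  change (Ordinal.ToType.mk.symm (f n) : Ordinal.{u}) < _
  refine lt_of_lt_of_le (lt_add_one _) ?_
  exact le_ciSup Ordinal.bddAbove_of_small n

/-- There is a co-consonant `T0` space whose lower powerspace is not co-consonant. -/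
theorem result : ∃ (X : Type u) (_ : TopologicalSpace X), T0Space X ∧ CoConsonant X ∧
    ¬ CoConsonant (LowerPowerspace X) := by
  have hne : Nonempty (Ordinal.omega.{u} 1).ToType :=
    Ordinal.nonempty_toType_iff.2 (Ordinal.omega_pos 1).ne'
  refine ⟨Pt (Ordinal.omega.{u} 1).ToType, inferInstance, t0_pt,
    coConsonant_pt omega_one_bounded, not_coConsonant_lower fun γ => ?_⟩
  obtain ⟨β, hβ⟩ := omega_one_bounded (fun _ => γ)
  exact ⟨β, hβ 0⟩

end Pool.Agent.Results.MP_a60c23_gt.NotPreserved
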